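import Pool.Agent.H31EE.Main

/-!
# The Euler characteristic of pinched Einstein six-manifolds is at least the volume

At a point of a Riemannian six-manifold where the Ricci tensor is `5 κ` times the metric (`κ > 0`) and
all sectional curvatures are at most `k κ` (`k ≥ 1`, no lower bound), the Gauss-Bonnet-Chern integrand is
at least `1 + (53 - 44 k) |W|² / (1080 κ²)` times its value for constant curvature `κ`, where `W` is the
Weyl tensor, and the infimum of the quotient over all such tensors is exactly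
`min 1 ((4375 - 12000 k + 11280 k² - 3520 k³) / 135)`, which is `1` exactly for `k ≤ 53 / 44`.
The mirrored statements hold for `Ric = -5 κ` and sectional curvatures at least `-k κ`.

So a closed Einstein six-manifold with `Ric = -5 κ` and `K ≥ -(53 / 44) κ` has
`-χ(M) ≥ (15 κ³ / (8 π³)) vol(M) = 2 vol(M) / vol(S⁶(1/√κ))`, and for `K ≥ -k κ`, `k < 53 / 44`,
equality holds exactly for constant curvature: a six-dimensional form of Gromov's inequality between the
minimal volume and the Euler characteristic of Einstein four-manifolds.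

The new pointwise inequality is `Pool.Agent.H31EE.key`; the formulas for the integrand as an average over
the unit sphere and the extremal tensors are those of `Pool/Agent/H933R2/Hopf/` and `Pool/Agent/W714/`.
-/

namespace Pool.Agent.Results.MP_ebfab8_gt.EulerVolumeDimSix

open Hopf6 MeasureTheory Pool.Agent.W714.HE Pool.Agent.W714.ES Pool.Agent.H31EE

/-- Einstein curvature tensors in dimension six with a one-sided bound of the sectional curvature:
comparison of the Gauss-Bonnet-Chern integrand with the one of constant curvature. -/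
theorem result :
    -- the pointwise bounds, with the squared norm of the Weyl tensor
    (∀ (V : Type) [NormedAddCommGroup V] [InnerProductSpace ℝ V]
      (e : OrthonormalBasis (Fin 6) ℝ V) (R : V → V → V → V → ℝ), AlgCurv R →
      ∀ κ k : ℝ, 0 < κ → 1 ≤ k →
        (Einstein e R κ → SecLE R (k * κ) →
          (1 + (53 - 44 * k) / 1080 * (weylSq e R κ / κ ^ 2)) * roundGB κ ≤ Hopf6.gbc e R ∧
          min 1 ((4375 - 12000 * k + 11280 * k ^ 2 - 3520 * k ^ 3) / 135) * roundGB κ ≤
            Hopf6.gbc e R ∧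
          (k < 53 / 44 → Hopf6.gbc e R = roundGB κ → ∀ x y z w,
            R x y z w = κ * (inner ℝ x z * inner ℝ y w - inner ℝ x w * inner ℝ y z))) ∧
        (Einstein e R (-κ) → SecGE R (-(k * κ)) →
          Hopf6.gbc e R ≤ -((1 + (53 - 44 * k) / 1080 * (weylSq e R (-κ) / κ ^ 2)) * roundGB κ) ∧
          Hopf6.gbc e R ≤
            -(min 1 ((4375 - 12000 * k + 11280 * k ^ 2 - 3520 * k ^ 3) / 135) * roundGB κ) ∧
          (k < 53 / 44 → Hopf6.gbc e R = -roundGB κ → ∀ x y z w,
            R x y z w = -κ * (inner ℝ x z * inner ℝ y w - inner ℝ x w * inner ℝ y z)))) ∧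
    -- the constant is `1` exactly up to `k = 53 / 44`
    (∀ k : ℝ, 1 < k →
      (1 ≤ (4375 - 12000 * k + 11280 * k ^ 2 - 3520 * k ^ 3) / 135 ↔ k ≤ 53 / 44)) ∧
    -- both values of the constant are attained
    (∀ κ k : ℝ, 0 < κ → 1 ≤ k →
      (∃ R : EuclideanSpace ℝ (Fin 6) → EuclideanSpace ℝ (Fin 6) → EuclideanSpace ℝ (Fin 6) →
          EuclideanSpace ℝ (Fin 6) → ℝ,
        AlgCurv R ∧ Einstein (EuclideanSpace.basisFun (Fin 6) ℝ) R κ ∧ SecLE R (k * κ) ∧
        Hopf6.gbc (EuclideanSpace.basisFun (Fin 6) ℝ) R =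
          (4375 - 12000 * k + 11280 * k ^ 2 - 3520 * k ^ 3) / 135 * roundGB κ) ∧
      (∃ R : EuclideanSpace ℝ (Fin 6) → EuclideanSpace ℝ (Fin 6) → EuclideanSpace ℝ (Fin 6) →
          EuclideanSpace ℝ (Fin 6) → ℝ,
        AlgCurv R ∧ Einstein (EuclideanSpace.basisFun (Fin 6) ℝ) R κ ∧ SecLE R (k * κ) ∧
        Hopf6.gbc (EuclideanSpace.basisFun (Fin 6) ℝ) R = roundGB κ)) ∧
    -- the integral is at least the volume
    (∀ (M : Type) [MeasurableSpace M] (μ : Measure M) (K : CurvField M) (κ : ℝ), 0 < κ →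
      Integrable K.gbc μ →
        ((∀ p, Einstein (K.e p) (K.R p) κ ∧ SecLE (K.R p) (53 / 44 * κ)) →
          μ Set.univ < ⊤ ∧ roundGB κ * (μ Set.univ).toReal ≤ ∫ p, K.gbc p ∂μ ∧
          ∀ p, K.SecIn p (2 / 11 * κ) (53 / 44 * κ)) ∧
        ((∀ p, Einstein (K.e p) (K.R p) (-κ) ∧ SecGE (K.R p) (-(53 / 44 * κ))) →
          μ Set.univ < ⊤ ∧ ∫ p, K.gbc p ∂μ ≤ -(roundGB κ * (μ Set.univ).toReal) ∧
          ∀ p, K.SecIn p (-(53 / 44 * κ)) (-(2 / 11 * κ))) ∧
        -- equality
        (∀ k : ℝ, 1 ≤ k → k < 53 / 44 →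
          (∀ p, Einstein (K.e p) (K.R p) κ ∧ SecLE (K.R p) (k * κ)) →
          ∫ p, K.gbc p ∂μ = roundGB κ * (μ Set.univ).toReal →
          ∀ᵐ p ∂μ, ∀ x y z w, K.R p x y z w =
            κ * (inner ℝ x z * inner ℝ y w - inner ℝ x w * inner ℝ y z)) ∧
        (∀ k : ℝ, 1 ≤ k → k < 53 / 44 →
          (∀ p, Einstein (K.e p) (K.R p) (-κ) ∧ SecGE (K.R p) (-(k * κ))) →
          ∫ p, K.gbc p ∂μ = -(roundGB κ * (μ Set.univ).toReal) →
          ∀ᵐ p ∂μ, ∀ x y z w, K.R p x y z w =
            -κ * (inner ℝ x z * inner ℝ y w - inner ℝ x w * inner ℝ y z))) := by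
  -- the equality case
  have hW : ∀ (k t r : ℝ), k < 53 / 44 → 0 ≤ t → 0 < r →
      (1 + (53 - 44 * k) / 1080 * t) * r ≤ r → t = 0 := by
    intro k t r hk ht hr h
    have h1 : (53 - 44 * k) / 1080 * t * r ≤ 0 := by linarith
    have h2 : 0 < (53 - 44 * k) / 1080 * r := mul_pos (by linarith) hr
    nlinarith
  have hsq : ∀ (t κ : ℝ), 0 < κ → t / κ ^ 2 = 0 → t = 0 := by
    intro t κ hκ h
    have h2 : κ ^ 2 ≠ 0 := by positivity
    rcases div_eq_zero_iff.1 h with h3 | h3
    · exact h3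
    · exact absurd h3 h2
  have hpt : ∀ (V : Type) [NormedAddCommGroup V] [InnerProductSpace ℝ V]
      (e : OrthonormalBasis (Fin 6) ℝ V) (R : V → V → V → V → ℝ), AlgCurv R →
      ∀ κ k : ℝ, 0 < κ → 1 ≤ k →
        (Einstein e R κ → SecLE R (k * κ) →
          (1 + (53 - 44 * k) / 1080 * (weylSq e R κ / κ ^ 2)) * roundGB κ ≤ Hopf6.gbc e R ∧
          min 1 (pol k / 135) * roundGB κ ≤ Hopf6.gbc e R ∧
          (k < 53 / 44 → Hopf6.gbc e R = roundGB κ → ∀ x y z w,
            R x y z w = κ * (inner ℝ x z * inner ℝ y w - inner ℝ x w * inner ℝ y z))) ∧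
        (Einstein e R (-κ) → SecGE R (-(k * κ)) →
          Hopf6.gbc e R ≤ -((1 + (53 - 44 * k) / 1080 * (weylSq e R (-κ) / κ ^ 2)) * roundGB κ) ∧
          Hopf6.gbc e R ≤ -(min 1 (pol k / 135) * roundGB κ) ∧
          (k < 53 / 44 → Hopf6.gbc e R = -roundGB κ → ∀ x y z w,
            R x y z w = -κ * (inner ℝ x z * inner ℝ y w - inner ℝ x w * inner ℝ y z))) := by
    intro V _ _ e R hR κ k hκ hk
    have hr := roundGB_pos hκ
    constructor
    · intro hE h
      have h1 := gbc_pos e hk hR hκ hE h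
      have h0 : 0 ≤ weylSq e R κ / κ ^ 2 := div_nonneg (weylSq_nonneg e R κ) (by positivity)
      refine ⟨h1.1, (mul_le_mul_of_nonneg_right (factor_ge h0 h1.2) hr.le).trans h1.1, ?_⟩
      intro hk1 heq x y z w
      refine weylSq_zero e hR (hsq _ κ hκ (hW k _ _ hk1 h0 hr ?_)) x y z w
      linarith [h1.1]
    · intro hE h
      have h1 := gbc_neg e hk hR hκ hE h
      have h0 : 0 ≤ weylSq e R (-κ) / κ ^ 2 :=
        div_nonneg (weylSq_nonneg e R (-κ)) (by positivity)
      refine ⟨h1.1, h1.1.trans (neg_le_neg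
        (mul_le_mul_of_nonneg_right (factor_ge h0 h1.2) hr.le)), ?_⟩
      intro hk1 heq x y z w
      refine weylSq_zero e hR (hsq _ κ hκ (hW k _ _ hk1 h0 hr ?_)) x y z w
      linarith [h1.1]
  -- finiteness of the measure
  have hfin : ∀ (M : Type) [MeasurableSpace M] (μ : Measure M) (f : M → ℝ) (r : ℝ), 0 < r →
      Integrable f μ → (∀ p, r ≤ |f p|) → μ Set.univ < ⊤ := by
    intro M _ μ f r hr hint h
    have h1 := hint.measure_norm_ge_lt_top hr
    have h2 : {x | r ≤ ‖f x‖} = Set.univ := by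
      ext p
      simp only [Set.mem_ofPred_eq, Set.mem_univ, iff_true, Real.norm_eq_abs]
      exact h p
    rwa [h2] at h1
  -- comparison of the integral with the volume
  have hint : ∀ (M : Type) [MeasurableSpace M] (μ : Measure M) (f : M → ℝ) (r : ℝ), 0 < r →
      Integrable f μ → (∀ p, r ≤ f p) →
        μ Set.univ < ⊤ ∧ r * (μ Set.univ).toReal ≤ ∫ p, f p ∂μ ∧
        (∫ p, f p ∂μ = r * (μ Set.univ).toReal → ∀ᵐ p ∂μ, f p = r) := by
    intro M _ μ f r hr hf h
    have hlt := hfin M μ f r hr hf fun p => (h p).trans (le_abs_self _)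
    have : IsFiniteMeasure μ := ⟨hlt⟩
    have hc : ∫ _ : M, r ∂μ = r * (μ Set.univ).toReal := by
      rw [integral_const, smul_eq_mul, mul_comm]
      rfl
    have hsub : ∫ p, (f p - r) ∂μ = ∫ p, f p ∂μ - r * (μ Set.univ).toReal := by
      rw [integral_sub hf (integrable_const r), hc]
    have hnn : 0 ≤ fun p => f p - r := fun p => sub_nonneg.2 (h p)
    refine ⟨hlt, ?_, ?_⟩
    · have := integral_nonneg (μ := μ) hnn
      rw [hsub] at this
      linarith
    · intro heq
      have h0 : ∫ p, (f p - r) ∂μ = 0 := by rw [hsub, heq, sub_self]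
      rw [integral_eq_zero_iff_of_nonneg hnn (hf.sub (integrable_const r))] at h0
      filter_upwards [h0] with p hp
      have : f p - r = 0 := hp
      linarith
  refine ⟨hpt, ?_, ?_, ?_⟩
  · intro k hk
    have hk1 : 0 < (k - 1) ^ 2 := by
      have : 0 < k - 1 := by linarith
      positivity
    have e1 : (4375 - 12000 * k + 11280 * k ^ 2 - 3520 * k ^ 3) / 135 =
        1 + 640 / 1080 * (k - 1) ^ 2 * (53 - 44 * k) := by ring
    rw [e1]
    constructor
    · intro h
      by_contra hc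
      push Not at hc
      have : (k - 1) ^ 2 * (53 - 44 * k) < 0 := mul_neg_of_pos_of_neg hk1 (by linarith)
      linarith
    · intro h
      have : 0 ≤ (k - 1) ^ 2 * (53 - 44 * k) := mul_nonneg hk1.le (by linarith)
      linarith
  · intro κ k hκ hk
    constructor
    · refine ⟨Rex (k * κ) ((5 * k - 5) * κ), Rex_curv _ _, Rex_Einstein k κ, Rex_sec ?_,
        sharp k κ⟩
      have : 0 ≤ 5 * k - 5 := by linarith
      positivity
    · refine ⟨Rex (1 * κ) ((5 * 1 - 5) * κ), Rex_curv _ _, Rex_Einstein 1 κ, ?_, ?_⟩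
      · intro x y hx hy hxy
        refine (Rex_sec (p := 1 * κ) (q := (5 * 1 - 5) * κ) (by norm_num) x y hx hy hxy).trans ?_
        exact mul_le_mul_of_nonneg_right hk hκ.le
      · have h1 := sharp 1 κ
        have h2 : pol 1 / 135 * roundGB κ = roundGB κ := by unfold pol; norm_num
        rw [h2] at h1
        exact h1
  · intro M _ μ K κ hκ hi
    have hr := roundGB_pos hκ
    have hk0 : (1 : ℝ) ≤ 53 / 44 := by norm_num
    have hfac : ∀ (k t : ℝ), k ≤ 53 / 44 → 0 ≤ t →
        roundGB κ ≤ (1 + (53 - 44 * k) / 1080 * t) * roundGB κ := by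
      intro k t hk ht
      have : 0 ≤ (53 - 44 * k) / 1080 * t * roundGB κ :=
        mul_nonneg (mul_nonneg (by linarith) ht) hr.le
      linarith
    have hpos : ∀ k : ℝ, 1 ≤ k → k ≤ 53 / 44 → ∀ p, Einstein (K.e p) (K.R p) κ →
        SecLE (K.R p) (k * κ) → roundGB κ ≤ K.gbc p := by
      intro k hk hk1 p hE h
      exact (hfac k _ hk1 (div_nonneg (weylSq_nonneg (K.e p) (K.R p) κ)
        (by positivity))).trans (((hpt (K.V p) (K.e p) (K.R p) (K.curv p) κ k hκ hk).1 hE h).1)
    have hneg : ∀ k : ℝ, 1 ≤ k → k ≤ 53 / 44 → ∀ p, Einstein (K.e p) (K.R p) (-κ) →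
        SecGE (K.R p) (-(k * κ)) → roundGB κ ≤ -K.gbc p := by
      intro k hk hk1 p hE h
      have h1 := ((hpt (K.V p) (K.e p) (K.R p) (K.curv p) κ k hκ hk).2 hE h).1
      have h2 := hfac k _ hk1 (div_nonneg (weylSq_nonneg (K.e p) (K.R p) (-κ))
        (by positivity : (0 : ℝ) ≤ κ ^ 2))
      have h3 : Hopf6.gbc (K.e p) (K.R p) = K.gbc p := rfl
      linarith
    refine ⟨?_, ?_, ?_, ?_⟩
    · intro h
      have h1 := hint M μ K.gbc (roundGB κ) hr hi fun p =>
        hpos (53 / 44) hk0 le_rfl p (h p).1 (h p).2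
      refine ⟨h1.1, h1.2.1, fun p => ?_⟩
      have h2 := sec_ge (K.e p) (K.curv p) (h p).1 (h p).2
      intro x y hx hy hxy
      refine ⟨?_, (h p).2 x y hx hy hxy⟩
      have := h2 x y hx hy hxy
      linarith
    · intro h
      have h1 := hint M μ (fun p => -K.gbc p) (roundGB κ) hr hi.neg fun p =>
        hneg (53 / 44) hk0 le_rfl p (h p).1 (h p).2
      rw [integral_neg] at h1
      refine ⟨h1.1, by linarith [h1.2.1], fun p => ?_⟩
      have h2 := sec_le (K.e p) (K.curv p) (h p).1 (h p).2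
      intro x y hx hy hxy
      refine ⟨(h p).2 x y hx hy hxy, ?_⟩
      have := h2 x y hx hy hxy
      linarith
    · intro k hk hk1 h heq
      have h1 := (hint M μ K.gbc (roundGB κ) hr hi fun p =>
        hpos k hk hk1.le p (h p).1 (h p).2).2.2 heq
      filter_upwards [h1] with p hp
      exact ((hpt (K.V p) (K.e p) (K.R p) (K.curv p) κ k hκ hk).1 (h p).1 (h p).2).2.2 hk1 hp
    · intro k hk hk1 h heq
      have h1 := (hint M μ (fun p => -K.gbc p) (roundGB κ) hr hi.neg fun p =>
        hneg k hk hk1.le p (h p).1 (h p).2).2.2 (by rw [integral_neg, heq, neg_neg])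
      filter_upwards [h1] with p hp
      refine ((hpt (K.V p) (K.e p) (K.R p) (K.curv p) κ k hκ hk).2 (h p).1 (h p).2).2.2 hk1 ?_
      have h3 : Hopf6.gbc (K.e p) (K.R p) = K.gbc p := rfl
      linarith

end Pool.Agent.Results.MP_ebfab8_gt.EulerVolumeDimSix
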