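import Pool.Agent.H31EP.Asy

/-!
# Einstein manifolds with a one-sided bound of the curvature operator

Let `n = 2 m ≥ 4`, let `κ ≠ 0` and let the Ricci tensor of a Riemannian `n`-manifold be `(n - 1) κ` times
the metric. Suppose that all eigenvalues of its curvature operator lie in `[κ - a, κ + b]`, or that only
one of the two bounds is known, and put then the other number equal to `n - 2` times the first. If
`144 min (a, b) + 18 √(a b) ≤ θ |κ|` with `θ ≤ 1`, then the quotient of the Gauss-Bonnet-Chern integrand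
and its value for constant curvature `κ` differs from `1 + w` by at most `(2 / 3) θ w`, where
`w = |W|² / (8 κ² (n - 1) (n - 3))` and `|W|²` is the squared norm of the Weyl tensor.

So what matters is the geometric mean of the two deviations, and a one-sided bound of the curvature
operator suffices if its distance `a` to `κ` is at most `|κ| / (144 + 18 √(n - 2))`.

The proof is in `Pool/Agent/H31EP/` (files `Gal`, `Wpc`, `Stp`, `Asy`). The operator `X` on the double
forms, whose vacuum expectations are the coefficients of the expansion of the integrand around constant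
curvature, is bounded by means of a curvature operator with the Bianchi identity and constant Ricci
tensor which dominates the absolute value of the given one: for such an operator the identity of Gallot
and Meyer, and a mixed version of it for double forms, bound the sums of squares of contractions,
derivations and exterior products by its Ricci curvature times the degree.
-/

namespace Pool.Agent.Results.MP_ebfab8_gt.EulerVolumeOneSided

open MeasureTheory
open Pool.Agent.H31EP Pool.Agent.TH594.HE
open Pool.Agent.W666.GB (AlgCurv gbc roundGB CurvField)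
open Pool.Agent.W669.HD (unitT)

/-- Einstein curvature tensors with asymmetric or one-sided bounds of the curvature operator: comparison
of the Gauss-Bonnet-Chern integrand with the one of constant curvature. -/
theorem result :
    -- at a point
    (∀ (m : ℕ) (V : Type) [NormedAddCommGroup V] [InnerProductSpace ℝ V]
      (e : OrthonormalBasis (Fin m × Bool) ℝ V) (R : V → V → V → V → ℝ) (κ a b θ : ℝ),
      2 ≤ m → AlgCurv R → κ ≠ 0 → θ ≤ 1 → 144 * min a b + 18 * Real.sqrt (a * b) ≤ θ * |κ| →
      Einstein e R κ → Near m R κ a b →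
        |gbc e R / roundGB m κ - (1 + wterm e R κ)| ≤ 2 / 3 * θ * wterm e R κ ∧
        1 + 1 / 3 * wterm e R κ ≤ gbc e R / roundGB m κ ∧
        gbc e R / roundGB m κ ≤ 1 + 5 / 3 * wterm e R κ ∧
        (gbc e R = roundGB m κ → ∀ x y z w, R x y z w = κ * unitT x y z w)) ∧
    -- the integrals
    (∀ (m : ℕ) (M : Type) [MeasurableSpace M] (μ : Measure M) (K : CurvField m M) (κ a b θ : ℝ),
      2 ≤ m → κ ≠ 0 → θ ≤ 1 → 144 * min a b + 18 * Real.sqrt (a * b) ≤ θ * |κ| →
      Integrable K.gb μ →
      (∀ p, Einstein (K.e p) (K.R p) κ ∧ Near m (K.R p) κ a b) →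
        μ Set.univ < ⊤ ∧
        μ.real Set.univ ≤ (∫ p, K.gb p ∂μ) / roundGB m κ ∧
        ((∫ p, K.gb p ∂μ) / roundGB m κ ≤ μ.real Set.univ →
          ∀ᵐ p ∂μ, ∀ x y z w, K.R p x y z w = κ * unitT x y z w) ∧
        (Integrable (fun p => wterm (K.e p) (K.R p) κ) μ →
          |(∫ p, K.gb p ∂μ) / roundGB m κ -
              (μ.real Set.univ + ∫ p, wterm (K.e p) (K.R p) κ ∂μ)| ≤
            2 / 3 * θ * ∫ p, wterm (K.e p) (K.R p) κ ∂μ)) := by
  have hround : ∀ (m : ℕ) (κ : ℝ), κ ≠ 0 → roundGB m κ ≠ 0 := by
    intro m κ hκ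
    have := Real.pi_pos
    unfold roundGB
    positivity
  have hpt : ∀ (m : ℕ) (V : Type) [NormedAddCommGroup V] [InnerProductSpace ℝ V]
      (e : OrthonormalBasis (Fin m × Bool) ℝ V) (R : V → V → V → V → ℝ) (κ a b θ : ℝ),
      2 ≤ m → AlgCurv R → κ ≠ 0 → θ ≤ 1 → 144 * min a b + 18 * Real.sqrt (a * b) ≤ θ * |κ| →
      Einstein e R κ → Near m R κ a b →
        |gbc e R / roundGB m κ - (1 + wterm e R κ)| ≤ 2 / 3 * θ * wterm e R κ ∧
        1 + 1 / 3 * wterm e R κ ≤ gbc e R / roundGB m κ ∧
        gbc e R / roundGB m κ ≤ 1 + 5 / 3 * wterm e R κ ∧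
        (gbc e R / roundGB m κ ≤ 1 → ∀ x y z w, R x y z w = κ * unitT x y z w) := by
    intro m V _ _ e R κ a b θ hm hR hκ hθ hab hE hP
    have h1 := near_main e hR hκ hm hab hθ hE hP
    have hw := wterm_nonneg e R κ hm
    have h2 : 2 / 3 * θ ≤ 2 / 3 := by linarith
    have h3 := mul_le_mul_of_nonneg_right h2 hw
    have h4 := abs_le.1 h1
    refine ⟨h1, by linarith [h4.1], by linarith [h4.2], fun h5 => ?_⟩
    have h6 : wterm e R κ = 0 := by linarith [h4.1]
    refine weylSq_zero e hR ?_
    unfold wterm at h6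
    have hmR : (2 : ℝ) ≤ m := by exact_mod_cast hm
    have d1 : (0 : ℝ) < 2 * m - 1 := by linarith
    have d3 : (0 : ℝ) < 2 * m - 3 := by linarith
    have h7 : 8 * κ ^ 2 * ((2 * (m : ℝ) - 1) * (2 * m - 3)) ≠ 0 := by positivity
    rcases div_eq_zero_iff.1 h6 with h8 | h8
    · exact h8
    · exact absurd h8 h7
  refine ⟨?_, ?_⟩
  · intro m V _ _ e R κ a b θ hm hR hκ hθ hab hE hP
    have h1 := hpt m V e R κ a b θ hm hR hκ hθ hab hE hP
    refine ⟨h1.1, h1.2.1, h1.2.2.1, fun h2 => h1.2.2.2 ?_⟩
    rw [h2, div_self (hround m κ hκ)]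
  · intro m M _ μ K κ a b θ hm hκ hθ hab hi h
    have hG := hround m κ hκ
    obtain ⟨f, hf⟩ : ∃ f : M → ℝ, f = fun p => K.gb p / roundGB m κ := ⟨_, rfl⟩
    have hp : ∀ p, 1 + 1 / 3 * wterm (K.e p) (K.R p) κ ≤ f p := fun p => by
      rw [hf]
      exact (hpt m (K.V p) (K.e p) (K.R p) κ a b θ hm (K.curv p) hκ hθ hab (h p).1 (h p).2).2.1
    have h1 : ∀ p, 1 ≤ f p := fun p => by
      linarith [hp p, wterm_nonneg (K.e p) (K.R p) κ hm]
    have hfi : Integrable f μ := by
      rw [hf]
      exact hi.div_const _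
    have hlt : μ Set.univ < ⊤ := by
      have h2 := hfi.measure_norm_ge_lt_top (ε := 1) one_pos
      have h3 : {x | 1 ≤ ‖f x‖} = Set.univ := by
        ext p
        simp only [Set.mem_ofPred_eq, Set.mem_univ, iff_true, Real.norm_eq_abs]
        exact (h1 p).trans (le_abs_self _)
      rwa [h3] at h2
    have : IsFiniteMeasure μ := ⟨hlt⟩
    have hint : ∫ p, f p ∂μ = (∫ p, K.gb p ∂μ) / roundGB m κ := by
      rw [hf, integral_div]
    have hc : ∫ _ : M, (1 : ℝ) ∂μ = μ.real Set.univ := by
      rw [integral_const, smul_eq_mul, mul_one]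
    have hsub : ∫ p, (f p - 1) ∂μ = ∫ p, f p ∂μ - μ.real Set.univ := by
      rw [integral_sub hfi (integrable_const 1), hc]
    have hnn : 0 ≤ fun p => f p - 1 := fun p => sub_nonneg.2 (h1 p)
    have hge : μ.real Set.univ ≤ ∫ p, f p ∂μ := by
      have := integral_nonneg (μ := μ) hnn
      rw [hsub] at this
      linarith
    refine ⟨hlt, ?_, ?_, ?_⟩
    · rw [← hint]
      exact hge
    · intro hle
      rw [← hint] at hle
      have h0 : ∫ p, (f p - 1) ∂μ = 0 := by
        rw [hsub]
        linarith
      rw [integral_eq_zero_iff_of_nonneg hnn (hfi.sub (integrable_const 1))] at h0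
      filter_upwards [h0] with p hp0
      have h2 : f p - 1 = 0 := hp0
      refine (hpt m (K.V p) (K.e p) (K.R p) κ a b θ hm (K.curv p) hκ hθ hab (h p).1 (h p).2).2.2.2 ?_
      have h3 : f p = gbc (K.e p) (K.R p) / roundGB m κ := by rw [hf]; rfl
      rw [← h3]
      linarith
    · intro hw
      have hsub2 : ∫ p, (f p - (1 + wterm (K.e p) (K.R p) κ)) ∂μ =
          ∫ p, f p ∂μ - (μ.real Set.univ + ∫ p, wterm (K.e p) (K.R p) κ ∂μ) := by
        have hsum : Integrable (fun p => 1 + wterm (K.e p) (K.R p) κ) μ :=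
          (integrable_const 1).add hw
        rw [integral_sub hfi hsum, integral_add (integrable_const 1) hw, hc]
      rw [← hint, ← hsub2, ← integral_const_mul, ← Real.norm_eq_abs]
      refine norm_integral_le_of_norm_le (hw.const_mul _) (Filter.Eventually.of_forall fun p => ?_)
      rw [Real.norm_eq_abs, hf]
      exact (hpt m (K.V p) (K.e p) (K.R p) κ a b θ hm (K.curv p) hκ hθ hab (h p).1 (h p).2).1

end Pool.Agent.Results.MP_ebfab8_gt.EulerVolumeOneSided
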