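import Pool.Agent.H31EP.Thm

/-!
# Pinched Einstein manifolds of every even dimension: the Euler characteristic is at least the volume

Let `n = 2 m ≥ 4`, let `κ ≠ 0` and let the Ricci tensor of a Riemannian `n`-manifold be `(n - 1) κ` times
the metric. Suppose that all eigenvalues of its curvature operator lie in `[κ - δ, κ + δ]` with
`δ ≤ |κ| / 64` - a pinching which does not depend on the dimension. Then the quotient of the
Gauss-Bonnet-Chern integrand and its value for constant curvature `κ` is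
`1 + w + θ w` with `w = |W|² / (8 κ² (n - 1) (n - 3))`, `|W|²` the squared norm of the Weyl tensor,
and `|θ| ≤ (128 / 3) δ / |κ| ≤ 2 / 3`. In particular it is at least `1 + w / 3`.

So a closed Einstein manifold `M` of this kind has `|χ(M)| ≥ 2 vol(M) / vol(S^n_κ)`, with equality
exactly for constant curvature, and the defect is comparable to the integral of `|W|²`, with absolute
constants.

The proof is in `Pool/Agent/H31EP/`. For a symmetric operator `A` on two-forms with vanishing Ricci
contraction the coefficients of the expansion of the integrand around constant curvature are vacuum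
expectations `⟨1, X^k 1⟩` for an operator `X` on the double forms (a Bogoliubov transform of the
multiplication by `A`); `X 1 = A`, and by the vanishing of the Ricci contraction `X` can be written so that it
is bounded by `51 / 2` times `n δ (degree)` on forms of low degree, so `|⟨1, X^k 1⟩| ≤ |X^j 1| |X^{k-j} 1|`
is at most `16 |A|² (51 n δ)^(k-2)` times two factorials of about `k / 2`.
-/

namespace Pool.Agent.Results.MP_ebfab8_gt.EulerVolumePinched

open MeasureTheory
open Pool.Agent.H31EP Pool.Agent.TH594.HE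
open Pool.Agent.W666.GB (AlgCurv gbc roundGB CurvField)
open Pool.Agent.W669.HD (unitT)

/-- Einstein curvature tensors with a curvature operator pinched by an absolute constant: comparison
of the Gauss-Bonnet-Chern integrand with the one of constant curvature. -/
theorem result :
    -- at a point
    (∀ (m : ℕ) (V : Type) [NormedAddCommGroup V] [InnerProductSpace ℝ V]
      (e : OrthonormalBasis (Fin m × Bool) ℝ V) (R : V → V → V → V → ℝ) (κ δ : ℝ),
      2 ≤ m → AlgCurv R → κ ≠ 0 → δ ≤ |κ| / 64 → Einstein e R κ →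
      CurvOpIn R (κ - δ) (κ + δ) →
        |gbc e R / roundGB m κ - (1 + wterm e R κ)| ≤ 128 / 3 * (δ / |κ|) * wterm e R κ ∧
        1 + 1 / 3 * wterm e R κ ≤ gbc e R / roundGB m κ ∧
        gbc e R / roundGB m κ ≤ 1 + 5 / 3 * wterm e R κ ∧
        (gbc e R = roundGB m κ → ∀ x y z w, R x y z w = κ * unitT x y z w)) ∧
    -- the integrals
    (∀ (m : ℕ) (M : Type) [MeasurableSpace M] (μ : Measure M) (K : CurvField m M) (κ δ : ℝ),
      2 ≤ m → κ ≠ 0 → δ ≤ |κ| / 64 → Integrable K.gb μ →
      (∀ p, Einstein (K.e p) (K.R p) κ ∧ CurvOpIn (K.R p) (κ - δ) (κ + δ)) →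
        μ Set.univ < ⊤ ∧
        μ.real Set.univ ≤ (∫ p, K.gb p ∂μ) / roundGB m κ ∧
        ((∫ p, K.gb p ∂μ) / roundGB m κ ≤ μ.real Set.univ →
          ∀ᵐ p ∂μ, ∀ x y z w, K.R p x y z w = κ * unitT x y z w) ∧
        (Integrable (fun p => wterm (K.e p) (K.R p) κ) μ →
          |(∫ p, K.gb p ∂μ) / roundGB m κ -
              (μ.real Set.univ + ∫ p, wterm (K.e p) (K.R p) κ ∂μ)| ≤
            128 / 3 * (δ / |κ|) * ∫ p, wterm (K.e p) (K.R p) κ ∂μ)) := by
  have hround : ∀ (m : ℕ) (κ : ℝ), κ ≠ 0 → roundGB m κ ≠ 0 := by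
    intro m κ hκ
    have := Real.pi_pos
    unfold roundGB
    positivity
  have hpt : ∀ (m : ℕ) (V : Type) [NormedAddCommGroup V] [InnerProductSpace ℝ V]
      (e : OrthonormalBasis (Fin m × Bool) ℝ V) (R : V → V → V → V → ℝ) (κ δ : ℝ),
      2 ≤ m → AlgCurv R → κ ≠ 0 → δ ≤ |κ| / 64 → Einstein e R κ →
      CurvOpIn R (κ - δ) (κ + δ) →
        |gbc e R / roundGB m κ - (1 + wterm e R κ)| ≤ 128 / 3 * (δ / |κ|) * wterm e R κ ∧
        1 + 1 / 3 * wterm e R κ ≤ gbc e R / roundGB m κ ∧
        gbc e R / roundGB m κ ≤ 1 + 5 / 3 * wterm e R κ ∧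
        (gbc e R / roundGB m κ ≤ 1 → ∀ x y z w, R x y z w = κ * unitT x y z w) := by
    intro m V _ _ e R κ δ hm hR hκ hδ hE hP
    have h1 := main e hR hκ hδ hm hE (Or.inl hP)
    have hw := wterm_nonneg e R κ hm
    have hk : 0 < |κ| := abs_pos.2 hκ
    have h2 : 128 / 3 * (δ / |κ|) ≤ 2 / 3 := by
      have : δ / |κ| ≤ 1 / 64 := by
        rw [div_le_iff₀ hk]
        linarith
      linarith
    have h3 := mul_le_mul_of_nonneg_right h2 hw
    have h4 := abs_le.1 h1
    refine ⟨h1, by linarith [h4.1], by linarith [h4.2], fun h5 => ?_⟩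
    have h6 : wterm e R κ = 0 := by linarith [h4.1]
    refine weylSq_zero e hR ?_
    unfold wterm at h6
    have hmR : (2 : ℝ) ≤ m := by exact_mod_cast hm
    have d1 : (0 : ℝ) < 2 * m - 1 := by linarith
    have d3 : (0 : ℝ) < 2 * m - 3 := by linarith
    have h7 : 8 * κ ^ 2 * ((2 * (m : ℝ) - 1) * (2 * m - 3)) ≠ 0 := by positivity
    rcases div_eq_zero_iff.1 h6 with h8 | h8
    · exact h8
    · exact absurd h8 h7
  refine ⟨?_, ?_⟩
  · intro m V _ _ e R κ δ hm hR hκ hδ hE hP
    have h1 := hpt m V e R κ δ hm hR hκ hδ hE hP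
    refine ⟨h1.1, h1.2.1, h1.2.2.1, fun h2 => h1.2.2.2 ?_⟩
    rw [h2, div_self (hround m κ hκ)]
  · intro m M _ μ K κ δ hm hκ hδ hi h
    have hG := hround m κ hκ
    obtain ⟨f, hf⟩ : ∃ f : M → ℝ, f = fun p => K.gb p / roundGB m κ := ⟨_, rfl⟩
    have hp : ∀ p, 1 + 1 / 3 * wterm (K.e p) (K.R p) κ ≤ f p := fun p => by
      rw [hf]
      exact (hpt m (K.V p) (K.e p) (K.R p) κ δ hm (K.curv p) hκ hδ (h p).1 (h p).2).2.1
    have h1 : ∀ p, 1 ≤ f p := fun p => by
      linarith [hp p, wterm_nonneg (K.e p) (K.R p) κ hm]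
    have hfi : Integrable f μ := by
      rw [hf]
      exact hi.div_const _
    have hlt : μ Set.univ < ⊤ := by
      have h2 := hfi.measure_norm_ge_lt_top (ε := 1) one_pos
      have h3 : {x | 1 ≤ ‖f x‖} = Set.univ := by
        ext p
        simp only [Set.mem_ofPred_eq, Set.mem_univ, iff_true, Real.norm_eq_abs]
        exact (h1 p).trans (le_abs_self _)
      rwa [h3] at h2
    have : IsFiniteMeasure μ := ⟨hlt⟩
    have hint : ∫ p, f p ∂μ = (∫ p, K.gb p ∂μ) / roundGB m κ := by
      rw [hf, integral_div]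
    have hc : ∫ _ : M, (1 : ℝ) ∂μ = μ.real Set.univ := by
      rw [integral_const, smul_eq_mul, mul_one]
    have hsub : ∫ p, (f p - 1) ∂μ = ∫ p, f p ∂μ - μ.real Set.univ := by
      rw [integral_sub hfi (integrable_const 1), hc]
    have hnn : 0 ≤ fun p => f p - 1 := fun p => sub_nonneg.2 (h1 p)
    have hge : μ.real Set.univ ≤ ∫ p, f p ∂μ := by
      have := integral_nonneg (μ := μ) hnn
      rw [hsub] at this
      linarith
    refine ⟨hlt, ?_, ?_, ?_⟩
    · rw [← hint]
      exact hge
    · intro hle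
      rw [← hint] at hle
      have h0 : ∫ p, (f p - 1) ∂μ = 0 := by
        rw [hsub]
        linarith
      rw [integral_eq_zero_iff_of_nonneg hnn (hfi.sub (integrable_const 1))] at h0
      filter_upwards [h0] with p hp0
      have h2 : f p - 1 = 0 := hp0
      refine (hpt m (K.V p) (K.e p) (K.R p) κ δ hm (K.curv p) hκ hδ (h p).1 (h p).2).2.2.2 ?_
      have h3 : f p = gbc (K.e p) (K.R p) / roundGB m κ := by rw [hf]; rfl
      rw [← h3]
      linarith
    · intro hw
      have hsub2 : ∫ p, (f p - (1 + wterm (K.e p) (K.R p) κ)) ∂μ =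
          ∫ p, f p ∂μ - (μ.real Set.univ + ∫ p, wterm (K.e p) (K.R p) κ ∂μ) := by
        have hsum : Integrable (fun p => 1 + wterm (K.e p) (K.R p) κ) μ :=
          (integrable_const 1).add hw
        rw [integral_sub hfi hsum, integral_add (integrable_const 1) hw, hc]
      rw [← hint, ← hsub2, ← integral_const_mul, ← Real.norm_eq_abs]
      refine norm_integral_le_of_norm_le (hw.const_mul _) (Filter.Eventually.of_forall fun p => ?_)
      rw [Real.norm_eq_abs, hf]
      exact (hpt m (K.V p) (K.e p) (K.R p) κ δ hm (K.curv p) hκ hδ (h p).1 (h p).2).1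

end Pool.Agent.Results.MP_ebfab8_gt.EulerVolumePinched
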