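import Pool.Agent.H51.EV.Ext

/-!
# The Euler characteristic and the volume of Einstein six-manifolds with a one-sided bound of the
curvature operator of the second kind

At a point of a Riemannian six-manifold where the Ricci tensor is `5 κ` times the metric (`κ > 0`), let
the curvature operator of the second kind (the operator `h ↦ R_{ijkl} h_{jk}` on traceless symmetric
two-tensors, equal to the identity for the unit sphere) be at least `-δ κ`. Then, with the Weyl tensor `W`,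
the Gauss-Bonnet-Chern integrand is at least `1 - (2 + 11 δ) |W|² / (1080 κ²)` and at least
`1 + |W|² / (120 κ²) - (11 / 27) (1 + δ)³` times its value for constant curvature `κ`; the infimum of the
quotient over all such tensors is exactly `min 1 g(δ)`, `g(δ) = 1 + (1 + δ)² / 3 - (11 / 27) (1 + δ)³`,
which is `1` exactly for `δ ≤ -2 / 11` and positive for `δ ≤ 17 / 25`. The mirrored statements hold for
`Ric = -5 κ` and an operator of the second kind that is at most `δ κ`.

So a closed Einstein six-manifold with `Ric = -5 κ` and an operator of the second kind at most `δ κ` has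
`-χ(M) ≥ min 1 g(δ) (15 κ³ / (8 π³)) vol(M)`.

The new pointwise inequality is `Pool.Agent.H51.EV.ff_ge`; the formulas for the integrand as an average
over the unit sphere and the extremal tensors are those of `Pool/Agent/H933R2/Hopf/` and
`Pool/Agent/W714/`, the norm of the Weyl tensor is the one of `Pool/Agent/H31EE/`.
-/

namespace Pool.Agent.Results.MP_ebfab8_gt.EulerVolumeSecondKind

open Hopf6 MeasureTheory Pool.Agent.W714.HE Pool.Agent.W714.ES Pool.Agent.H31EE Pool.Agent.H51.EV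

/-- Einstein curvature tensors in dimension six with a one-sided bound of the curvature operator of the
second kind: comparison of the Gauss-Bonnet-Chern integrand with the one of constant curvature. -/
theorem result :
    -- the pointwise bounds
    (∀ (V : Type) [NormedAddCommGroup V] [InnerProductSpace ℝ V]
      (e : OrthonormalBasis (Fin 6) ℝ V) (R : V → V → V → V → ℝ), AlgCurv R →
      ∀ κ δ : ℝ, 0 < κ → -1 < δ →
        (Einstein e R κ → SecondGE e R (-(δ * κ)) →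
          (1 - (2 + 11 * δ) / 1080 * (weylSq e R κ / κ ^ 2)) * roundGB κ ≤ Hopf6.gbc e R ∧
          (1 + weylSq e R κ / κ ^ 2 / 120 - 11 / 27 * (1 + δ) ^ 3) * roundGB κ ≤
            Hopf6.gbc e R ∧
          min 1 (1 + (1 + δ) ^ 2 / 3 - 11 / 27 * (1 + δ) ^ 3) * roundGB κ ≤ Hopf6.gbc e R ∧
          (δ < -(2 / 11) → Hopf6.gbc e R = roundGB κ → ∀ x y z w,
            R x y z w = κ * (inner ℝ x z * inner ℝ y w - inner ℝ x w * inner ℝ y z))) ∧
        (Einstein e R (-κ) → SecondLE e R (δ * κ) →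
          Hopf6.gbc e R ≤
            -((1 - (2 + 11 * δ) / 1080 * (weylSq e R (-κ) / κ ^ 2)) * roundGB κ) ∧
          Hopf6.gbc e R ≤
            -((1 + weylSq e R (-κ) / κ ^ 2 / 120 - 11 / 27 * (1 + δ) ^ 3) * roundGB κ) ∧
          Hopf6.gbc e R ≤
            -(min 1 (1 + (1 + δ) ^ 2 / 3 - 11 / 27 * (1 + δ) ^ 3) * roundGB κ) ∧
          (δ < -(2 / 11) → Hopf6.gbc e R = -roundGB κ → ∀ x y z w,
            R x y z w = -κ * (inner ℝ x z * inner ℝ y w - inner ℝ x w * inner ℝ y z)))) ∧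
    -- the constant
    (∀ δ : ℝ, -1 < δ →
      (1 ≤ 1 + (1 + δ) ^ 2 / 3 - 11 / 27 * (1 + δ) ^ 3 ↔ δ ≤ -(2 / 11)) ∧
      (δ ≤ 17 / 25 → 0 < 1 + (1 + δ) ^ 2 / 3 - 11 / 27 * (1 + δ) ^ 3)) ∧
    -- both values of the constant are attained
    (∀ κ δ : ℝ, 0 < κ → -1 < δ →
      (∃ R : EuclideanSpace ℝ (Fin 6) → EuclideanSpace ℝ (Fin 6) → EuclideanSpace ℝ (Fin 6) →
          EuclideanSpace ℝ (Fin 6) → ℝ,
        AlgCurv R ∧ Einstein (EuclideanSpace.basisFun (Fin 6) ℝ) R κ ∧
        SecondGE (EuclideanSpace.basisFun (Fin 6) ℝ) R (-(δ * κ)) ∧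
        Hopf6.gbc (EuclideanSpace.basisFun (Fin 6) ℝ) R =
          (1 + (1 + δ) ^ 2 / 3 - 11 / 27 * (1 + δ) ^ 3) * roundGB κ) ∧
      (∃ R : EuclideanSpace ℝ (Fin 6) → EuclideanSpace ℝ (Fin 6) → EuclideanSpace ℝ (Fin 6) →
          EuclideanSpace ℝ (Fin 6) → ℝ,
        AlgCurv R ∧ Einstein (EuclideanSpace.basisFun (Fin 6) ℝ) R κ ∧
        SecondGE (EuclideanSpace.basisFun (Fin 6) ℝ) R (-(δ * κ)) ∧
        Hopf6.gbc (EuclideanSpace.basisFun (Fin 6) ℝ) R = roundGB κ)) ∧
    -- comparison of the integral with the volume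
    (∀ (M : Type) [MeasurableSpace M] (μ : Measure M) (K : CurvField M) (κ δ : ℝ), 0 < κ →
      -1 < δ → Integrable K.gbc μ →
        (0 < 1 + (1 + δ) ^ 2 / 3 - 11 / 27 * (1 + δ) ^ 3 →
          (∀ p, Einstein (K.e p) (K.R p) κ ∧ SecondGE (K.e p) (K.R p) (-(δ * κ))) →
          μ Set.univ < ⊤ ∧
          min 1 (1 + (1 + δ) ^ 2 / 3 - 11 / 27 * (1 + δ) ^ 3) * roundGB κ *
            (μ Set.univ).toReal ≤ ∫ p, K.gbc p ∂μ) ∧
        (0 < 1 + (1 + δ) ^ 2 / 3 - 11 / 27 * (1 + δ) ^ 3 →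
          (∀ p, Einstein (K.e p) (K.R p) (-κ) ∧ SecondLE (K.e p) (K.R p) (δ * κ)) →
          μ Set.univ < ⊤ ∧ ∫ p, K.gbc p ∂μ ≤
            -(min 1 (1 + (1 + δ) ^ 2 / 3 - 11 / 27 * (1 + δ) ^ 3) * roundGB κ *
              (μ Set.univ).toReal)) ∧
        -- equality
        (δ < -(2 / 11) →
          (∀ p, Einstein (K.e p) (K.R p) κ ∧ SecondGE (K.e p) (K.R p) (-(δ * κ))) →
          ∫ p, K.gbc p ∂μ = roundGB κ * (μ Set.univ).toReal →
          ∀ᵐ p ∂μ, ∀ x y z w, K.R p x y z w =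
            κ * (inner ℝ x z * inner ℝ y w - inner ℝ x w * inner ℝ y z)) ∧
        (δ < -(2 / 11) →
          (∀ p, Einstein (K.e p) (K.R p) (-κ) ∧ SecondLE (K.e p) (K.R p) (δ * κ)) →
          ∫ p, K.gbc p ∂μ = -(roundGB κ * (μ Set.univ).toReal) →
          ∀ᵐ p ∂μ, ∀ x y z w, K.R p x y z w =
            -κ * (inner ℝ x z * inner ℝ y w - inner ℝ x w * inner ℝ y z))) := by
  -- the equality case
  have hW : ∀ (δ t r : ℝ), δ < -(2 / 11) → 0 ≤ t → 0 < r →
      (1 - (2 + 11 * δ) / 1080 * t) * r ≤ r → t = 0 := by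
    intro δ t r hk ht hr h
    have h1 : (-(2 + 11 * δ)) / 1080 * t * r ≤ 0 := by linarith
    have h2 : 0 < (-(2 + 11 * δ)) / 1080 * r := mul_pos (by linarith) hr
    nlinarith
  have hsq : ∀ (t κ : ℝ), 0 < κ → t / κ ^ 2 = 0 → t = 0 := by
    intro t κ hκ h
    have h2 : κ ^ 2 ≠ 0 := by positivity
    rcases div_eq_zero_iff.1 h with h3 | h3
    · exact h3
    · exact absurd h3 h2
  have hpt : ∀ (V : Type) [NormedAddCommGroup V] [InnerProductSpace ℝ V]
      (e : OrthonormalBasis (Fin 6) ℝ V) (R : V → V → V → V → ℝ), AlgCurv R →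
      ∀ κ δ : ℝ, 0 < κ → -1 < δ →
        (Einstein e R κ → SecondGE e R (-(δ * κ)) →
          (1 - (2 + 11 * δ) / 1080 * (weylSq e R κ / κ ^ 2)) * roundGB κ ≤ Hopf6.gbc e R ∧
          (1 + weylSq e R κ / κ ^ 2 / 120 - 11 / 27 * (1 + δ) ^ 3) * roundGB κ ≤
            Hopf6.gbc e R ∧
          min 1 (1 + (1 + δ) ^ 2 / 3 - 11 / 27 * (1 + δ) ^ 3) * roundGB κ ≤ Hopf6.gbc e R ∧
          (δ < -(2 / 11) → Hopf6.gbc e R = roundGB κ → ∀ x y z w,
            R x y z w = κ * (inner ℝ x z * inner ℝ y w - inner ℝ x w * inner ℝ y z))) ∧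
        (Einstein e R (-κ) → SecondLE e R (δ * κ) →
          Hopf6.gbc e R ≤
            -((1 - (2 + 11 * δ) / 1080 * (weylSq e R (-κ) / κ ^ 2)) * roundGB κ) ∧
          Hopf6.gbc e R ≤
            -((1 + weylSq e R (-κ) / κ ^ 2 / 120 - 11 / 27 * (1 + δ) ^ 3) * roundGB κ) ∧
          Hopf6.gbc e R ≤
            -(min 1 (1 + (1 + δ) ^ 2 / 3 - 11 / 27 * (1 + δ) ^ 3) * roundGB κ) ∧
          (δ < -(2 / 11) → Hopf6.gbc e R = -roundGB κ → ∀ x y z w,
            R x y z w = -κ * (inner ℝ x z * inner ℝ y w - inner ℝ x w * inner ℝ y z))) := by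
    intro V _ _ e R hR κ δ hκ hδ
    have hr := roundGB_pos hκ
    constructor
    · intro hE h
      have h1 := gbc_pos2 e hδ hR hκ hE h
      have h0 : 0 ≤ weylSq e R κ / κ ^ 2 := div_nonneg (weylSq_nonneg e R κ) (by positivity)
      refine ⟨h1.1, h1.2, factor_mul h0 hr.le h1.1 h1.2, ?_⟩
      intro hk1 heq x y z w
      refine weylSq_zero e hR (hsq _ κ hκ (hW δ _ _ hk1 h0 hr ?_)) x y z w
      linarith [h1.1]
    · intro hE h
      have h1 := gbc_neg2 e hδ hR hκ hE h
      have h0 : 0 ≤ weylSq e R (-κ) / κ ^ 2 :=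
        div_nonneg (weylSq_nonneg e R (-κ)) (by positivity)
      refine ⟨h1.1, h1.2, ?_, ?_⟩
      · have := factor_mul (δ := δ) (g := -Hopf6.gbc e R) h0 hr.le (by linarith [h1.1])
          (by linarith [h1.2])
        linarith
      · intro hk1 heq x y z w
        refine weylSq_zero e hR (hsq _ κ hκ (hW δ _ _ hk1 h0 hr ?_)) x y z w
        linarith [h1.1]
  -- finiteness of the measure
  have hfin : ∀ (M : Type) [MeasurableSpace M] (μ : Measure M) (f : M → ℝ) (r : ℝ), 0 < r →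
      Integrable f μ → (∀ p, r ≤ |f p|) → μ Set.univ < ⊤ := by
    intro M _ μ f r hr hint h
    have h1 := hint.measure_norm_ge_lt_top hr
    have h2 : {x | r ≤ ‖f x‖} = Set.univ := by
      ext p
      simp only [Set.mem_ofPred_eq, Set.mem_univ, iff_true, Real.norm_eq_abs]
      exact h p
    rwa [h2] at h1
  -- comparison of the integral with the volume
  have hint : ∀ (M : Type) [MeasurableSpace M] (μ : Measure M) (f : M → ℝ) (r : ℝ), 0 < r →
      Integrable f μ → (∀ p, r ≤ f p) →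
        μ Set.univ < ⊤ ∧ r * (μ Set.univ).toReal ≤ ∫ p, f p ∂μ ∧
        (∫ p, f p ∂μ = r * (μ Set.univ).toReal → ∀ᵐ p ∂μ, f p = r) := by
    intro M _ μ f r hr hf h
    have hlt := hfin M μ f r hr hf fun p => (h p).trans (le_abs_self _)
    have : IsFiniteMeasure μ := ⟨hlt⟩
    have hc : ∫ _ : M, r ∂μ = r * (μ Set.univ).toReal := by
      rw [integral_const, smul_eq_mul, mul_comm]
      rfl
    have hsub : ∫ p, (f p - r) ∂μ = ∫ p, f p ∂μ - r * (μ Set.univ).toReal := by
      rw [integral_sub hf (integrable_const r), hc]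
    have hnn : 0 ≤ fun p => f p - r := fun p => sub_nonneg.2 (h p)
    refine ⟨hlt, ?_, ?_⟩
    · have := integral_nonneg (μ := μ) hnn
      rw [hsub] at this
      linarith
    · intro heq
      have h0 : ∫ p, (f p - r) ∂μ = 0 := by rw [hsub, heq, sub_self]
      rw [integral_eq_zero_iff_of_nonneg hnn (hf.sub (integrable_const r))] at h0
      filter_upwards [h0] with p hp
      have : f p - r = 0 := hp
      linarith
  have hone : ∀ δ : ℝ, -1 < δ →
      (1 ≤ 1 + (1 + δ) ^ 2 / 3 - 11 / 27 * (1 + δ) ^ 3 ↔ δ ≤ -(2 / 11)) := by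
    intro δ hδ
    have hk1 : 0 < (1 + δ) ^ 2 := by
      have : 0 < 1 + δ := by linarith
      positivity
    have e1 : 1 + (1 + δ) ^ 2 / 3 - 11 / 27 * (1 + δ) ^ 3 =
        1 + 1 / 27 * ((1 + δ) ^ 2 * (-2 - 11 * δ)) := by ring
    rw [e1]
    constructor
    · intro h
      by_contra hc
      push Not at hc
      have : (1 + δ) ^ 2 * (-2 - 11 * δ) < 0 := mul_neg_of_pos_of_neg hk1 (by linarith)
      linarith
    · intro h
      have : 0 ≤ (1 + δ) ^ 2 * (-2 - 11 * δ) := mul_nonneg hk1.le (by linarith)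
      linarith
  refine ⟨hpt, fun δ hδ => ⟨hone δ hδ, ?_⟩, ?_, ?_⟩
  · intro hδ1
    set s : ℝ := 1 + δ with hs
    have hs0 : 0 < s := by linarith
    have hs1 : s ≤ 42 / 25 := by linarith
    have h1 : s ^ 2 * (s - 9 / 11) ≤ (42 / 25) ^ 2 * (42 / 25 - 9 / 11) := by
      rcases le_or_gt s (9 / 11) with h | h
      · have : s ^ 2 * (s - 9 / 11) ≤ 0 :=
          mul_nonpos_of_nonneg_of_nonpos (by positivity) (by linarith)
        norm_num
        linarith
      · exact mul_le_mul (pow_le_pow_left₀ hs0.le hs1 2) (by linarith) (by linarith)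
          (by positivity)
    have h2 : 1 + s ^ 2 / 3 - 11 / 27 * s ^ 3 = 1 - 11 / 27 * (s ^ 2 * (s - 9 / 11)) := by ring
    rw [h2]
    have h3 : (11 : ℝ) / 27 * ((42 / 25) ^ 2 * (42 / 25 - 9 / 11)) < 1 := by norm_num
    linarith
  · intro κ δ hκ hδ
    constructor
    · refine ⟨Rex ((5 + δ) / 4 * κ) ((5 * ((5 + δ) / 4) - 5) * κ), Rex_curv _ _,
        Rex_Einstein ((5 + δ) / 4) κ, ?_, ?_⟩
      · have h1 : 0 ≤ (5 * ((5 + δ) / 4) - 5) * κ := mul_nonneg (by linarith) hκ.le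
        have h2 := Rex_second (p := (5 + δ) / 4 * κ) h1
        have h3 : (5 + δ) / 4 * κ - (5 * ((5 + δ) / 4) - 5) * κ = -(δ * κ) := by ring
        rw [h3] at h2
        exact h2
      · have h1 := sharp ((5 + δ) / 4) κ
        rw [pol_eq] at h1
        exact h1
    · refine ⟨Rex (1 * κ) ((5 * 1 - 5) * κ), Rex_curv _ _, Rex_Einstein 1 κ, ?_, ?_⟩
      · have h2 := Rex_second (p := 1 * κ) (q := (5 * 1 - 5) * κ) (by norm_num)
        refine h2.mono ?_
        have : 0 ≤ (1 + δ) * κ := mul_nonneg (by linarith) hκ.le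
        linarith
      · have h1 := sharp 1 κ
        have h2 : pol 1 / 135 * roundGB κ = roundGB κ := by unfold pol; norm_num
        rw [h2] at h1
        exact h1
  · intro M _ μ K κ δ hκ hδ hi
    have hr := roundGB_pos hκ
    have hmin : δ < -(2 / 11) → min 1 (1 + (1 + δ) ^ 2 / 3 - 11 / 27 * (1 + δ) ^ 3) = 1 :=
      fun h => min_eq_left ((hone δ hδ).2 h.le)
    have hpos : 0 < 1 + (1 + δ) ^ 2 / 3 - 11 / 27 * (1 + δ) ^ 3 →
        0 < min 1 (1 + (1 + δ) ^ 2 / 3 - 11 / 27 * (1 + δ) ^ 3) * roundGB κ :=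
      fun h => mul_pos (lt_min one_pos h) hr
    have h3 : ∀ p, Hopf6.gbc (K.e p) (K.R p) = K.gbc p := fun p => rfl
    refine ⟨?_, ?_, ?_, ?_⟩
    · intro hg h
      have h1 := hint M μ K.gbc _ (hpos hg) hi fun p =>
        ((hpt (K.V p) (K.e p) (K.R p) (K.curv p) κ δ hκ hδ).1 (h p).1 (h p).2).2.2.1
      exact ⟨h1.1, h1.2.1⟩
    · intro hg h
      have h1 := hint M μ (fun p => -K.gbc p) _ (hpos hg) hi.neg fun p => by
        have := ((hpt (K.V p) (K.e p) (K.R p) (K.curv p) κ δ hκ hδ).2 (h p).1 (h p).2).2.2.1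
        rw [h3 p] at this
        linarith
      rw [integral_neg] at h1
      exact ⟨h1.1, by linarith [h1.2.1]⟩
    · intro hk1 h heq
      have h1 := (hint M μ K.gbc (roundGB κ) hr hi fun p => by
        have := ((hpt (K.V p) (K.e p) (K.R p) (K.curv p) κ δ hκ hδ).1 (h p).1 (h p).2).2.2.1
        rw [hmin hk1, one_mul, h3 p] at this
        exact this).2.2 heq
      filter_upwards [h1] with p hp
      exact ((hpt (K.V p) (K.e p) (K.R p) (K.curv p) κ δ hκ hδ).1 (h p).1 (h p).2).2.2.2 hk1 hp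
    · intro hk1 h heq
      have h1 := (hint M μ (fun p => -K.gbc p) (roundGB κ) hr hi.neg fun p => by
        have := ((hpt (K.V p) (K.e p) (K.R p) (K.curv p) κ δ hκ hδ).2 (h p).1 (h p).2).2.2.1
        rw [hmin hk1, one_mul, h3 p] at this
        linarith).2.2 (by rw [integral_neg, heq, neg_neg])
      filter_upwards [h1] with p hp
      refine ((hpt (K.V p) (K.e p) (K.R p) (K.curv p) κ δ hκ hδ).2 (h p).1 (h p).2).2.2.2 hk1 ?_
      rw [h3 p]
      linarith

end Pool.Agent.Results.MP_ebfab8_gt.EulerVolumeSecondKind
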